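import Pool.Agent.Helper598.LHFamily

/-!
# Regular unimodular triangulations of lecture hall simplices: reduction at the ends

* If `P^(s, r)` has a regular unimodular triangulation then so does `P^(s, r + k s_n)` for every
  `k`, and symmetrically at the left end. So an end entry may be reduced modulo its neighbour.
* If `P^(s)` has a regular unimodular triangulation then so do `P^(s, k s_n)`, `P^(s, k s_n + 1)`
  and their mirror images.
* Unconditionally: start with an arbitrary pair `(p, q)` and extend it repeatedly, to the right and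
  to the left, by numbers congruent to `0` or `1` modulo their inner neighbour. All these `P^(s)`
  have regular unimodular triangulations.
-/

namespace Pool.Agent.Results.MP_74b890_co.EndReduction

open Finset Geometry

/-- The `s`-lecture hall simplex `0 ≤ x_1/s_1 ≤ x_2/s_2 ≤ ⋯ ≤ x_n/s_n ≤ 1`. -/
def lectureHallSimplex {n : ℕ} (s : Fin n → ℕ) : Set (Fin n → ℝ) :=
  {x | (∀ i, 0 ≤ x i / (s i : ℝ) ∧ x i / (s i : ℝ) ≤ 1) ∧
    ∀ i j, i ≤ j → x i / (s i : ℝ) ≤ x j / (s j : ℝ)}

/-- The lattice points (points of `ℤ^n`) of a subset `Q` of `ℝ^n`. -/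
def latticePoints {n : ℕ} (Q : Set (Fin n → ℝ)) : Set (Fin n → ℝ) :=
  {x | x ∈ Q ∧ ∀ i, ∃ k : ℤ, x i = (k : ℝ)}

/-- `K` is the regular triangulation of `Q` induced by the height function `h` on the lattice
points of `Q`: `K` is a simplicial complex with underlying space `Q`, and its faces are exactly the
nonempty finite sets of lattice points of `Q` whose lifts span a lower face of the lifted point
configuration, i.e. for which some affine functional equals `h` on the set and is strictly smaller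
than `h` at all the other lattice points of `Q`. -/
structure IsRegularTriangulation {n : ℕ} (Q : Set (Fin n → ℝ))
    (K : SimplicialComplex ℝ (Fin n → ℝ)) (h : (Fin n → ℝ) → ℝ) : Prop where
  space_eq : K.space = Q
  mem_faces : ∀ σ : Finset (Fin n → ℝ), σ ∈ K.faces ↔
    σ.Nonempty ∧ (∀ v ∈ σ, v ∈ latticePoints Q) ∧
      ∃ (a : Fin n → ℝ) (c : ℝ), (∀ v ∈ σ, ∑ i, a i * v i + c = h v) ∧
        ∀ w ∈ latticePoints Q, w ∉ σ → ∑ i, a i * w i + c < h w

/-- `σ` is the vertex set of a unimodular simplex of dimension `n`: its elements are `n + 1`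
lattice points `v 0, …, v n` with `|det (v 1 - v 0, …, v n - v 0)| = 1`, that is, the simplex has
Euclidean volume `1 / n!`. -/
def IsUnimodularSimplex {n : ℕ} (σ : Finset (Fin n → ℝ)) : Prop :=
  ∃ v : Fin (n + 1) → (Fin n → ℤ), Function.Injective v ∧
    (∀ x, x ∈ σ ↔ ∃ j, x = fun i => (v j i : ℝ)) ∧
    |Matrix.det (Matrix.of fun (j : Fin n) (i : Fin n) => v j.succ i - v 0 i)| = 1

/-- `Q` has a regular unimodular triangulation. -/
def HasRUT {n : ℕ} (Q : Set (Fin n → ℝ)) : Prop :=
  ∃ (K : SimplicialComplex ℝ (Fin n → ℝ)) (h : (Fin n → ℝ) → ℝ),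
    IsRegularTriangulation Q K h ∧ ∀ σ ∈ K.facets, IsUnimodularSimplex σ

open Pool.Agent.Helper598.LHGood Pool.Agent.Helper489.RUT

section conversion

variable {n : ℕ} {s : Fin n → ℕ}

/-- The lattice points of the polytope. -/
lemma toR_mem_iff (hs : ∀ i, 0 < s i) (f : Fin n → ℤ) :
    toR f ∈ lectureHallSimplex s ↔ f ∈ AZ s := by
  have hs' : ∀ i, (0 : ℝ) < (s i : ℝ) := fun i => by exact_mod_cast hs i
  rw [mem_AZ]
  constructor
  · rintro ⟨h1, h2⟩
    refine ⟨fun i => ?_, fun i j hij => ?_⟩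
    · have h3 := (h1 i).1
      have h4 := (h1 i).2
      rw [div_le_one (hs' i)] at h4
      have h5 : 0 ≤ toR f i := by
        by_contra hcon
        have := div_neg_of_neg_of_pos (not_le.1 hcon) (hs' i)
        linarith
      simp only [toR] at h4 h5
      exact ⟨by exact_mod_cast h5, by exact_mod_cast h4⟩
    · have h3 := h2 i j hij
      rw [div_le_div_iff₀ (hs' i) (hs' j)] at h3
      simp only [toR] at h3
      exact_mod_cast h3
  · rintro ⟨h1, h2⟩
    refine ⟨fun i => ⟨?_, ?_⟩, fun i j hij => ?_⟩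
    · apply div_nonneg _ (hs' i).le
      simp only [toR]
      exact_mod_cast (h1 i).1
    · rw [div_le_one (hs' i)]
      simp only [toR]
      exact_mod_cast (h1 i).2
    · rw [div_le_div_iff₀ (hs' i) (hs' j)]
      simp only [toR]
      exact_mod_cast h2 i j hij

lemma polytope_convex (s : Fin n → ℕ) : Convex ℝ (lectureHallSimplex s) := by
  intro f hf g hg a b ha hb hab
  have e : ∀ x, (a • f + b • g) x / (s x : ℝ) = a * (f x / (s x : ℝ)) + b * (g x / (s x : ℝ)) := by
    intro x
    simp only [Pi.add_apply, Pi.smul_apply, smul_eq_mul]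
    ring
  refine ⟨fun x => ?_, fun x y hxy => ?_⟩
  · rw [e]
    have h1 := mul_nonneg ha (hf.1 x).1
    have h2 := mul_nonneg hb (hg.1 x).1
    have h3 := mul_le_mul_of_nonneg_left (hf.1 x).2 ha
    have h4 := mul_le_mul_of_nonneg_left (hg.1 x).2 hb
    constructor <;> linarith
  · rw [e, e]
    have h1 := mul_le_mul_of_nonneg_left (hf.2 x y hxy) ha
    have h2 := mul_le_mul_of_nonneg_left (hg.2 x y hxy) hb
    linarith

lemma polytope_compact (hs : ∀ i, 0 < s i) : IsCompact (lectureHallSimplex s) := by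
  have hs' : ∀ i, (0 : ℝ) < (s i : ℝ) := fun i => by exact_mod_cast hs i
  have hbox : IsCompact (Set.pi Set.univ (fun x : Fin n => Set.Icc (0 : ℝ) (s x))) :=
    isCompact_univ_pi (fun x => isCompact_Icc)
  refine hbox.of_isClosed_subset ?_ ?_
  · have : lectureHallSimplex s =
        (⋂ x, ⋂ y, ⋂ (_ : x ≤ y), {f : Fin n → ℝ | f x / (s x : ℝ) ≤ f y / (s y : ℝ)}) ∩
        ⋂ x, ({f : Fin n → ℝ | 0 ≤ f x / (s x : ℝ)} ∩ {f : Fin n → ℝ | f x / (s x : ℝ) ≤ 1}) := by
      ext f
      simp only [lectureHallSimplex, Set.mem_ofPred_eq, Set.mem_inter_iff, Set.mem_iInter]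
      exact and_comm
    rw [this]
    apply IsClosed.inter
    · refine isClosed_iInter fun x => isClosed_iInter fun y => isClosed_iInter fun _ => ?_
      exact isClosed_le ((continuous_apply x).div_const _) ((continuous_apply y).div_const _)
    · refine isClosed_iInter fun x => IsClosed.inter ?_ ?_
      · exact isClosed_le continuous_const ((continuous_apply x).div_const _)
      · exact isClosed_le ((continuous_apply x).div_const _) continuous_const
  · intro f hf
    rw [Set.mem_univ_pi]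
    intro x
    have h1 := (hf.1 x).1
    have h2 := (hf.1 x).2
    rw [div_le_one (hs' x)] at h2
    refine ⟨?_, h2⟩
    by_contra hcon
    have := div_neg_of_neg_of_pos (not_le.1 hcon) (hs' x)
    linarith

/-- The extreme points of the polytope are lattice points. -/
lemma extreme_lattice (hs : ∀ x, 0 < s x) {f : Fin n → ℝ}
    (hf : f ∈ (lectureHallSimplex s).extremePoints ℝ) :
    ∃ z : Fin n → ℤ, toR z = f := by
  have hs' : ∀ x, (0 : ℝ) < (s x : ℝ) := fun x => by exact_mod_cast hs x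
  rw [mem_extremePoints] at hf
  obtain ⟨hfQ, hext⟩ := hf
  let g : Fin n → ℝ := fun x => f x / (s x : ℝ)
  have hg : ∀ x, 0 ≤ g x ∧ g x ≤ 1 := hfQ.1
  have hfg : ∀ x, f x = s x * g x := by
    intro x
    simp only [g]
    field_simp [(hs' x).ne']
  let fp : Fin n → ℝ := fun x => s x * (g x + g x * (1 - g x) / 2)
  let fm : Fin n → ℝ := fun x => s x * (g x - g x * (1 - g x) / 2)
  have hp : ∀ x, fp x / (s x : ℝ) = g x + g x * (1 - g x) / 2 := by
    intro x; simp only [fp]; rw [mul_div_cancel_left₀ _ (hs' x).ne']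
  have hm : ∀ x, fm x / (s x : ℝ) = g x - g x * (1 - g x) / 2 := by
    intro x; simp only [fm]; rw [mul_div_cancel_left₀ _ (hs' x).ne']
  have hpQ : fp ∈ lectureHallSimplex s := by
    refine ⟨fun x => ?_, fun x y hxy => ?_⟩
    · rw [hp]
      have h2 := hg x
      constructor <;> nlinarith
    · rw [hp, hp]
      have h1 : g x ≤ g y := hfQ.2 x y hxy
      have h2 := hg x
      have h3 := hg y
      nlinarith
  have hmQ : fm ∈ lectureHallSimplex s := by
    refine ⟨fun x => ?_, fun x y hxy => ?_⟩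
    · rw [hm]
      have h2 := hg x
      constructor <;> nlinarith
    · rw [hm, hm]
      have h1 : g x ≤ g y := hfQ.2 x y hxy
      have h2 := hg x
      have h3 := hg y
      nlinarith
  have hseg : f ∈ openSegment ℝ fp fm := by
    refine ⟨1 / 2, 1 / 2, by norm_num, by norm_num, by norm_num, ?_⟩
    funext x
    simp only [Pi.add_apply, Pi.smul_apply, smul_eq_mul, fp, fm]
    rw [hfg]
    ring
  have heq := (hext fp hpQ fm hmQ hseg).1
  have h01 : ∀ x, g x = 0 ∨ g x = 1 := by
    intro x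
    have h1 := congrFun heq x
    rw [hfg] at h1
    simp only [fp] at h1
    have h2 : g x + g x * (1 - g x) / 2 = g x := mul_left_cancel₀ (hs' x).ne' h1
    have h3 : g x * (1 - g x) = 0 := by linarith
    rcases mul_eq_zero.1 h3 with h | h
    · exact Or.inl h
    · right; linarith
  classical
  refine ⟨fun x => if g x = 0 then 0 else s x, ?_⟩
  funext x
  simp only [toR]
  rw [hfg]
  rcases h01 x with h | h
  · simp [h]
  · simp [h]

/-- The polytope is the convex hull of its lattice points. -/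
lemma polytope_eq_hull (hs : ∀ i, 0 < s i) [DecidableEq (Fin n → ℝ)] :
    lectureHallSimplex s =
      convexHull ℝ (((AZ s).image toR : Finset (Fin n → ℝ)) : Set (Fin n → ℝ)) := by
  apply Set.Subset.antisymm
  · rw [← closure_convexHull_extremePoints (polytope_compact hs) (polytope_convex _)]
    refine closure_minimal ?_ ((((AZ s).image toR).finite_toSet).isClosed_convexHull (𝕜 := ℝ))
    apply convexHull_mono
    intro f hf
    obtain ⟨z, rfl⟩ := extreme_lattice hs hf
    rw [Finset.mem_coe, Finset.mem_image]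
    exact ⟨z, (toR_mem_iff hs z).1 hf.1, rfl⟩
  · apply convexHull_min _ (polytope_convex _)
    intro f hf
    rw [Finset.mem_coe, Finset.mem_image] at hf
    obtain ⟨z, hz, rfl⟩ := hf
    exact (toR_mem_iff hs z).2 hz

lemma mem_latticePoints (hs : ∀ i, 0 < s i) [DecidableEq (Fin n → ℝ)] (x : Fin n → ℝ) :
    x ∈ latticePoints (lectureHallSimplex s) ↔ x ∈ (AZ s).image toR := by
  constructor
  · rintro ⟨hx, hxi⟩
    choose k hk using hxi
    have hxk : toR k = x := funext (fun i => (hk i).symm)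
    rw [Finset.mem_image]
    refine ⟨k, (toR_mem_iff hs k).1 ?_, hxk⟩
    rw [hxk]; exact hx
  · intro hx
    obtain ⟨k, hk, rfl⟩ := Finset.mem_image.1 hx
    exact ⟨(toR_mem_iff hs k).2 hk, fun i => ⟨k i, rfl⟩⟩

/-- Dual functionals give determinant `± 1`. -/
lemma unimodular_of_uniD {C : Finset (Fin n → ℤ)} (hU : UniD C) (hc : C.card = n + 1) :
    ∃ v : Fin (n + 1) → (Fin n → ℤ), Function.Injective v ∧ (∀ f, f ∈ C ↔ ∃ j, v j = f) ∧
      |Matrix.det (Matrix.of fun (j : Fin n) (i : Fin n) => v j.succ i - v 0 i)| = 1 := by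
  classical
  let e : Fin (n + 1) ≃ C := (C.equivFinOfCardEq hc).symm
  let v : Fin (n + 1) → (Fin n → ℤ) := fun j => (e j : Fin n → ℤ)
  have hvinj : Function.Injective v := fun i j h => e.injective (Subtype.ext h)
  have hvC : ∀ j, v j ∈ C := fun j => (e j).2
  refine ⟨v, hvinj, ?_, ?_⟩
  · intro f
    constructor
    · intro hf
      exact ⟨e.symm ⟨f, hf⟩, by simp [v]⟩
    · rintro ⟨j, rfl⟩
      exact hvC j
  · have hL : ∀ j : Fin n, ∃ (a : Fin n → ℤ) (c : ℤ),
        ∀ i, ∑ z, a z * v i z + c = if i = j.succ then 1 else 0 := by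
      intro j
      obtain ⟨l, hl, hl1, hl2⟩ := hU (v j.succ) (hvC _)
      obtain ⟨a, c, hac⟩ := hl.coeff
      refine ⟨a, c, fun i => ?_⟩
      rw [← hac]
      by_cases h : i = j.succ
      · rw [h, hl1, if_pos rfl]
      · rw [if_neg h]
        exact hl2 _ (hvC i) (fun h' => h (hvinj h'))
    choose a c hac using hL
    let M : Matrix (Fin n) (Fin n) ℤ :=
      Matrix.of fun (j : Fin n) (i : Fin n) => v j.succ i - v 0 i
    let N : Matrix (Fin n) (Fin n) ℤ := Matrix.of fun (z : Fin n) (j : Fin n) => a j z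
    have hMN : M * N = 1 := by
      ext i j
      rw [Matrix.mul_apply, Matrix.one_apply]
      have h1 := hac j i.succ
      have h2 := hac j 0
      have h3 : ∑ z, M i z * N z j = (∑ z, a j z * v i.succ z + c j) -
          (∑ z, a j z * v 0 z + c j) := by
        rw [add_sub_add_right_eq_sub, ← Finset.sum_sub_distrib]
        refine Finset.sum_congr rfl (fun z _ => ?_)
        simp only [M, N, Matrix.of_apply]
        ring
      rw [h3, h1, h2]
      simp only [Fin.succ_inj, (Fin.succ_ne_zero j).symm, if_false, sub_zero]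
    have hdet : M.det * N.det = 1 := by rw [← Matrix.det_mul, hMN, Matrix.det_one]
    exact Int.isUnit_iff_abs_eq.1 (IsUnit.of_mul_eq_one _ hdet)

/-- Determinant `± 1` gives dual functionals. -/
lemma uniD_of_unimodular {C : Finset (Fin n → ℤ)} {v : Fin (n + 1) → (Fin n → ℤ)}
    (hvC : ∀ f ∈ C, ∃ j, v j = f)
    (hdet : |Matrix.det (Matrix.of fun (j : Fin n) (i : Fin n) => v j.succ i - v 0 i)| = 1) :
    UniD C := by
  classical
  set M : Matrix (Fin n) (Fin n) ℤ :=
      Matrix.of fun (j : Fin n) (i : Fin n) => v j.succ i - v 0 i with hM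
  have hunit : IsUnit M.det := Int.isUnit_iff_abs_eq.2 hdet
  have hinv : M * M⁻¹ = 1 := Matrix.mul_nonsing_inv M hunit
  -- functionals dual to `v 1, …, v n`
  let l : Fin n → (Fin n → ℤ) → ℤ := fun j x => ∑ z, M⁻¹ z j * x z + (-∑ z, M⁻¹ z j * v 0 z)
  have hlA : ∀ j, AffZ (l j) := fun j => affZ_coeff _ _
  have hl : ∀ (j : Fin n) (x : Fin n → ℤ), l j x = ∑ z, (x z - v 0 z) * M⁻¹ z j := by
    intro j x
    simp only [l]
    rw [← sub_eq_add_neg, ← Finset.sum_sub_distrib]
    refine Finset.sum_congr rfl (fun z _ => by ring)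
  have hl0 : ∀ j, l j (v 0) = 0 := by
    intro j
    rw [hl]
    simp
  have hl1 : ∀ i j, l j (v (Fin.succ i)) = if i = j then 1 else 0 := by
    intro i j
    rw [hl, ← Matrix.one_apply, ← hinv, Matrix.mul_apply]
    rfl
  intro f hf
  obtain ⟨j, rfl⟩ := hvC f hf
  refine Fin.cases ?_ (fun j => ?_) j
  · refine ⟨fun x => 1 - ∑ j ∈ univ, l j x, (AffZ.const 1).sub (AffZ.sum _ _ (fun j _ => hlA j)),
      ?_, ?_⟩
    · simp [hl0]
    · intro w hw hwv
      obtain ⟨i, rfl⟩ := hvC w hw
      revert hwv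
      refine Fin.cases ?_ (fun i => ?_) i
      · intro h; exact absurd rfl h
      · intro _
        simp [hl1]
  · refine ⟨l j, hlA j, by simp [hl1], ?_⟩
    intro w hw hwv
    obtain ⟨i, rfl⟩ := hvC w hw
    revert hwv
    refine Fin.cases ?_ (fun i => ?_) i
    · intro _; exact hl0 j
    · intro h
      rw [hl1, if_neg]
      rintro rfl
      exact h rfl

theorem hasRUT_of_good (hs : ∀ i, 0 < s i) (hG : Good (AZ s)) :
    HasRUT (lectureHallSimplex s) := by
  classical
  obtain ⟨ω, hω⟩ := hG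
  let h : (Fin n → ℝ) → ℝ := fun x => ω (fun i => ⌊x i⌋)
  have hh : ∀ f : Fin n → ℤ, h (toR f) = ω f := by
    intro f
    simp [h, toR]
  have hsep : ∀ φ : (Fin n → ℝ) × ℝ, (∀ a ∈ (AZ s).image toR, ev φ a = 0) → φ = 0 :=
    fun φ hφ => sep_AZ hs φ (fun a ha => hφ _ (mem_image_of_mem _ ha))
  have huni : ∀ σ, Pool.Agent.Helper489.RUT.Low ((AZ s).image toR) h σ → ∃ C : Finset (Fin n → ℤ), UniD C ∧
      σ = C.image toR := by
    intro σ hσ
    refine ⟨_, hω _ (low_of_low hh hσ), ?_⟩
    ext x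
    rw [Finset.mem_image]
    constructor
    · intro hx
      obtain ⟨k, hk, rfl⟩ := Finset.mem_image.1 (hσ.1 hx)
      exact ⟨k, Finset.mem_filter.2 ⟨hk, hx⟩, rfl⟩
    · rintro ⟨k, hk, rfl⟩
      exact (Finset.mem_filter.1 hk).2
  have hdual : ∀ σ, Pool.Agent.Helper489.RUT.Low ((AZ s).image toR) h σ → Dual σ := by
    intro σ hσ v hv
    obtain ⟨C, hC, rfl⟩ := huni σ hσ
    obtain ⟨k, hk, rfl⟩ := Finset.mem_image.1 hv
    obtain ⟨l, hl, hl1, hl2⟩ := hC k hk
    obtain ⟨ψ, hψ⟩ := hl.cast.ev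
    refine ⟨ψ, ?_, ?_⟩
    · rw [← hψ]
      simp [hl1]
    · intro w hw hwk
      obtain ⟨m, hm, rfl⟩ := Finset.mem_image.1 hw
      have : m ≠ k := fun h => hwk (by rw [h])
      rw [← hψ, hl2 m hm this]
      simp
  obtain ⟨K, hK1, hK2, hK3⟩ := exists_complex ((AZ s).image toR) h hsep hdual
  refine ⟨K, h, ⟨?_, ?_⟩, ?_⟩
  · rw [hK2, ← polytope_eq_hull hs]
  · intro σ
    rw [hK1]
    constructor
    · rintro ⟨hne, hσA, φ, h1, h2⟩
      refine ⟨hne, fun v hv => (mem_latticePoints hs v).2 (hσA hv), φ.1, φ.2, h1, ?_⟩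
      intro w hw hwσ
      exact h2 w ((mem_latticePoints hs w).1 hw) hwσ
    · rintro ⟨hne, hσA, a, c, h1, h2⟩
      refine ⟨hne, fun v hv => (mem_latticePoints hs v).1 (hσA v hv), (a, c), h1, ?_⟩
      intro w hw hwσ
      exact h2 w ((mem_latticePoints hs w).2 hw) hwσ
  · intro σ hσ
    have hcard := hK3 σ hσ
    obtain ⟨C, hC, rfl⟩ := huni σ ((hK1 σ).1 hσ.1).2
    rw [Finset.card_image_of_injective _ toR_injective] at hcard
    obtain ⟨v, hv1, hv2, hv3⟩ := unimodular_of_uniD hC hcard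
    refine ⟨v, hv1, ?_, hv3⟩
    intro x
    rw [Finset.mem_image]
    constructor
    · rintro ⟨f, hf, rfl⟩
      obtain ⟨j, rfl⟩ := (hv2 f).1 hf
      exact ⟨j, rfl⟩
    · rintro ⟨j, rfl⟩
      exact ⟨v j, (hv2 _).2 ⟨j, rfl⟩, rfl⟩

theorem good_of_hasRUT (hs : ∀ i, 0 < s i) (hQ : HasRUT (lectureHallSimplex s)) :
    Good (AZ s) := by
  classical
  obtain ⟨K, h, ⟨hK1, hK2⟩, hK3⟩ := hQ
  refine ⟨fun f => h (toR f), ?_⟩
  rintro σ ⟨hσA, φ, hφ, h1, h2⟩
  rcases σ.eq_empty_or_nonempty with rfl | hne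
  · intro v hv
    exact absurd hv (notMem_empty v)
  obtain ⟨ψ, hψ⟩ := hφ.ev
  have hface : σ.image toR ∈ K.faces := by
    rw [hK2]
    refine ⟨hne.image _, ?_, ψ.1, ψ.2, ?_, ?_⟩
    · intro v hv
      obtain ⟨f, hf, rfl⟩ := mem_image.1 hv
      exact (mem_latticePoints hs _).2 (mem_image_of_mem _ (hσA hf))
    · intro v hv
      obtain ⟨f, hf, rfl⟩ := mem_image.1 hv
      have := h1 f hf
      rw [hψ] at this
      exact this
    · intro w hw hwσ
      obtain ⟨f, hf, rfl⟩ := mem_image.1 ((mem_latticePoints hs _).1 hw)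
      have := h2 f hf (fun hc => hwσ (mem_image_of_mem _ hc))
      rw [hψ] at this
      exact this
  -- a facet containing it
  obtain ⟨τ, hτ, hτmax⟩ := exists_max_image
    ((((AZ s).image toR).powerset).filter fun τ => τ ∈ K.faces ∧ σ.image toR ⊆ τ) Finset.card
    ⟨σ.image toR, mem_filter.2 ⟨mem_powerset.2 (image_subset_image hσA), hface, Subset.refl _⟩⟩
  rw [mem_filter, mem_powerset] at hτ
  have hτfac : τ ∈ K.facets := by
    refine ⟨hτ.2.1, fun ρ hρ hτρ => ?_⟩
    have hρA : ρ ⊆ (AZ s).image toR := fun v hv =>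
      (mem_latticePoints hs _).1 (((hK2 ρ).1 hρ).2.1 v hv)
    have := hτmax ρ (mem_filter.2 ⟨mem_powerset.2 hρA, hρ, hτ.2.2.trans hτρ⟩)
    exact eq_of_subset_of_card_le hτρ this
  obtain ⟨v, hv1, hv2, hv3⟩ := hK3 τ hτfac
  refine uniD_of_unimodular (v := v) ?_ hv3
  intro f hf
  obtain ⟨j, hj⟩ := (hv2 (toR f)).1 (hτ.2.2 (mem_image_of_mem _ hf))
  refine ⟨j, toR_injective ?_⟩
  rw [hj]
  rfl

end conversion

/-- **Main theorem.** -/
theorem result :
    -- the unconditional family: an arbitrary adjacent pair `(s_j, s_{j+1})`, extended to the right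
    -- and to the left by numbers that are `0` or `1` modulo their inner neighbour
    (∀ (n : ℕ) (s : Fin n → ℕ), (∀ i, 0 < s i) → ∀ j : ℕ,
      (∀ (i : ℕ) (h : i + 1 < n), j < i → s ⟨i + 1, h⟩ % s ⟨i, by omega⟩ ≤ 1) →
      (∀ (i : ℕ) (h : i + 1 < n), i < j → s ⟨i, by omega⟩ % s ⟨i + 1, h⟩ ≤ 1) →
      HasRUT (lectureHallSimplex s)) ∧
    -- the last entry may be reduced modulo its neighbour
    (∀ (n : ℕ) (s : Fin (n + 1) → ℕ), (∀ i, 0 < s i) → ∀ r : ℕ, 0 < r →
      HasRUT (lectureHallSimplex (Fin.snoc s r : Fin (n + 2) → ℕ)) → ∀ k : ℕ,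
      HasRUT (lectureHallSimplex (Fin.snoc s (r + k * s (Fin.last n)) : Fin (n + 2) → ℕ))) ∧
    -- the first entry may be reduced modulo its neighbour
    (∀ (n : ℕ) (s : Fin (n + 1) → ℕ), (∀ i, 0 < s i) → ∀ r : ℕ, 0 < r →
      HasRUT (lectureHallSimplex (Fin.cons r s : Fin (n + 2) → ℕ)) → ∀ k : ℕ,
      HasRUT (lectureHallSimplex (Fin.cons (r + k * s 0) s : Fin (n + 2) → ℕ))) ∧
    -- appending or prepending a number that is `0` or `1` modulo the neighbour
    (∀ (n : ℕ) (s : Fin (n + 1) → ℕ), (∀ i, 0 < s i) → HasRUT (lectureHallSimplex s) →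
      ∀ t : ℕ, 0 < t →
      (t % s (Fin.last n) ≤ 1 → HasRUT (lectureHallSimplex (Fin.snoc s t : Fin (n + 2) → ℕ))) ∧
      (t % s 0 ≤ 1 → HasRUT (lectureHallSimplex (Fin.cons t s : Fin (n + 2) → ℕ)))) := by
  have snoc_pos : ∀ (n : ℕ) (s : Fin (n + 1) → ℕ), (∀ i, 0 < s i) → ∀ r : ℕ, 0 < r →
      ∀ i, 0 < (Fin.snoc s r : Fin (n + 2) → ℕ) i := by
    intro n s hs r hr i
    refine Fin.lastCases ?_ (fun i => ?_) i
    · simpa using hr
    · simpa using hs i
  have cons_pos : ∀ (n : ℕ) (s : Fin (n + 1) → ℕ), (∀ i, 0 < s i) → ∀ r : ℕ, 0 < r →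
      ∀ i, 0 < (Fin.cons r s : Fin (n + 2) → ℕ) i := by
    intro n s hs r hr i
    refine Fin.cases ?_ (fun i => ?_) i
    · simpa using hr
    · simpa using hs i
  refine ⟨?_, ?_, ?_, ?_⟩
  · intro n s hs j hr hl
    exact hasRUT_of_good hs (good_family n s hs j hr hl)
  · intro n s hs r hr h0 k
    apply hasRUT_of_good (snoc_pos n s hs _ (by omega))
    have h1 := good_of_hasRUT (snoc_pos n s hs r hr) h0
    clear h0
    induction k with
    | zero => simpa using h1
    | succ k ih =>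
      have := good_snoc_add hs (by omega : 0 < r + k * s (Fin.last n)) ih
      have e : r + (k + 1) * s (Fin.last n) = r + k * s (Fin.last n) + s (Fin.last n) := by ring
      rw [e]
      exact this
  · intro n s hs r hr h0 k
    apply hasRUT_of_good (cons_pos n s hs _ (by omega))
    have h1 := good_of_hasRUT (cons_pos n s hs r hr) h0
    clear h0
    induction k with
    | zero => simpa using h1
    | succ k ih =>
      have := good_cons_add hs (by omega : 0 < r + k * s 0) ih
      have e : r + (k + 1) * s 0 = r + k * s 0 + s 0 := by ring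
      rw [e]
      exact this
  · intro n s hs h0 t ht
    have h1 := good_of_hasRUT hs h0
    refine ⟨fun h => ?_, fun h => ?_⟩
    · exact hasRUT_of_good (snoc_pos n s hs t ht) (good_right hs h1 t ht h)
    · exact hasRUT_of_good (cons_pos n s hs t ht) (good_left hs h1 t ht h)

end Pool.Agent.Results.MP_74b890_co.EndReduction
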